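import Pool.Agent.W458.MF.GStm
import Pool.Agent.W534.PoleB
import Pool.Agent.W536.RBase

/-!
# Project MFG, part DFIN: a criterion for the conjecture D
-/

open CategoryTheory AlgebraicGeometry

universe u v

namespace Pool.Agent.W839.MF

open Pool.Agent.H914 Pool.Agent.W534 VarClass Obj WeilCohomology Pool.Agent.H281R3.HT
open Pool.Agent.W536.RR (algSpan_mul algSpan_map algSpan_push algSpan_comm cl_mem_algSpan
  algSpan_induction)

variable {k : Type u} [Field k] {𝒱 : VarClass k} {ops : CycleOps 𝒱}
  {W : WeilCohomology.{u, v} ops} {Z : 𝒱.Obj}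

/-- The correspondence given by the external square of a class of even degree. -/
lemma corr_ext_self {d : ℕ} {w : W.H Z} (hw : w ∈ W.gr Z (2 * d)) (a : W.H Z) :
    W.corr (ext W w w) a = W.tr Z (w * a) • w := by
  rw [corr_apply, ext, mul_assoc, W.even_comm (W.map_mem (snd Z Z) hw), ← mul_assoc, ← map_mul,
    W.push_snd]

/-- A class of even degree whose external square is algebraic and which is not orthogonal to an
algebraic class is algebraic. -/
lemma mem_algSpan_of {d : ℕ} {w a : W.H Z} (hw : w ∈ W.gr Z (2 * d))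
    (hww : ext W w w ∈ algSpan W (Z.prod Z)) (ha : a ∈ algSpan W Z)
    (hne : W.tr Z (w * a) ≠ 0) : w ∈ algSpan W Z := by
  have h1 : W.corr (ext W w w) a ∈ algSpan W Z := by
    rw [corr_apply]
    exact algSpan_push _ (algSpan_mul hww (algSpan_map _ ha))
  rw [corr_ext_self hw] at h1
  have h2 := Submodule.smul_mem _ (W.tr Z (w * a))⁻¹ h1
  rwa [smul_smul, inv_mul_cancel₀ hne, one_smul] at h2

theorem dfin : Pool.Agent.W458.MF.St_DFIN.{u, v} := by
  intro k _ 𝒱 ops W p hp Φ Z h j hj z hz hnum
  obtain ⟨s, hs, hcyc⟩ := Φ.cyc hz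
  obtain ⟨l, hl⟩ := Nat.exists_eq_add_of_le hj
  have hl' : Z.dim - j = l := by omega
  -- numerically trivial against all algebraic classes
  have horth : ∀ a ∈ algSpan W Z, W.tr Z (W.cl Z z * a) = 0 := by
    intro a ha
    refine algSpan_induction (p := fun a => W.tr Z (W.cl Z z * a) = 0) ?_ ?_ ?_ ?_ ha
    · rw [mul_zero, map_zero]
    · intro x y hx hy
      rw [mul_add, map_add, hx, hy, add_zero]
    · intro t x hx
      rw [mul_smul_comm, map_smul, hx, smul_zero]
    · intro i w hw
      by_cases hi : i = l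
      · subst hi
        have h1 : Z.IsCyc Z.dim (ops.mul z w) := by
          rw [hl]
          exact ops.mul_mem hz hw
        rw [← W.cl_mul, W.tr_cl h1, hnum w (by rw [hl']; exact hw), Rat.cast_zero]
      · exact W.tr_eq_zero (W.mul_mem (W.cl_mem hz) (W.cl_mem hw)) (by omega)
  refine genTate_nondeg Φ (s := s) (j := j) (l := l) hl.symm
    (mem_genTate_of_eig Φ (W.cl_mem hz) ?_) ?_
  · rw [frob_apply, hcyc]
    unfold card
    rw [Nat.cast_pow, ← pow_mul]
  · intro y hy
    have hy' := h s hs l y hy
    clear hy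
    induction hy' using Submodule.span_induction with
    | mem y hy1 =>
      obtain ⟨w, A, ⟨d, hw⟩, hww, hA, rfl⟩ := hy1
      by_contra hne
      have e1 : W.cl Z z * (w * A) = w * (W.cl Z z * A) := by
        rw [← mul_assoc, algSpan_comm (cl_mem_algSpan hz) w, mul_assoc]
      have hzA : W.cl Z z * A ∈ algSpan W Z := algSpan_mul (cl_mem_algSpan hz) hA
      have hwalg : w ∈ algSpan W Z := mem_algSpan_of hw hww hzA (by rw [← e1]; exact hne)
      exact hne (horth _ (algSpan_mul hwalg hA))
    | zero => rw [mul_zero, map_zero]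
    | add a b _ _ ha hb => rw [mul_add, map_add, ha, hb, add_zero]
    | smul c a _ ha => rw [mul_smul_comm, map_smul, ha, smul_zero]

end Pool.Agent.W839.MF
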